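import Pool.Agent.LeoK.CountStmts

/-!
Module LWA: the good vectors of a form which are primitive at the primes of a finite set.
-/

set_option autoImplicit false

open NumberField IsDedekindDomain Module MeasureTheory Filter Topology

namespace Pool.Agent.LeoK.H76

open Pool.Agent.LeoK

variable {k : Type} [Field k]

/-- the form at a real place -/
def rv (s : Sg k) (v : Q4 (𝓞 k)) : Q4 ℝ := fun i => s (v i : k)

/-- a real place on the integers -/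
noncomputable def ph (s : Sg k) : 𝓞 k →+* ℝ := s.comp (algebraMap (𝓞 k) k)

section hom

variable {A A' : Type} [CommRing A] [CommRing A'] (f : A →+* A')

theorem qP_map (v : Q4 A) : qP (fun i => f (v i)) = f (qP v) := by
  simp only [qP, fP, map_sub, map_mul, map_pow]

theorem qM_map (v : Q4 A) : qM (fun i => f (v i)) = f (qM v) := by
  simp only [qM, fM, fP, fQ, fR, map_sub, map_mul, map_pow, map_ofNat]

theorem hes_map (v : Q4 A) (X Y : A) : hes (fun i => f (v i)) (f X) (f Y) = f (hes v X Y) := by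
  simp only [hes, fP, fQ, fR, map_sub, map_add, map_mul, map_pow]

theorem val_map (v : Q4 A) (X Y : A) : val (fun i => f (v i)) (f X) (f Y) = f (val v X Y) := by
  simp only [val, cub, map_add, map_mul, map_pow, map_ofNat]

end hom

theorem qP_rv (s : Sg k) (v : Q4 (𝓞 k)) : qP (rv s v) = s ((qP v : 𝓞 k) : k) := qP_map (ph s) v

theorem qM_rv (s : Sg k) (v : Q4 (𝓞 k)) : qM (rv s v) = s ((qM v : 𝓞 k) : k) := qM_map (ph s) v

theorem hes_rv (s : Sg k) (v : Q4 (𝓞 k)) (X Y : 𝓞 k) :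
    hes (rv s v) (s (X : k)) (s (Y : k)) = s ((hes v X Y : 𝓞 k) : k) := hes_map (ph s) v X Y

theorem val_rv (s : Sg k) (v : Q4 (𝓞 k)) (X Y : 𝓞 k) :
    val (rv s v) (s (X : k)) (s (Y : k)) = s ((val v X Y : 𝓞 k) : k) := val_map (ph s) v X Y

/-- the complex vector of a pair -/
noncomputable def zz (z₁ z₂ : Sg k → ℂ) (X Y : 𝓞 k) : Sg k → ℂ :=
  fun s => ((s (X : k) : ℝ) : ℂ) * z₁ s + ((s (Y : k) : ℝ) : ℂ) * z₂ s

theorem zz_add (z₁ z₂ : Sg k → ℂ) (X Y X' Y' : 𝓞 k) :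
    zz z₁ z₂ (X + X') (Y + Y') = zz z₁ z₂ X Y + zz z₁ z₂ X' Y' := by
  funext s
  simp only [zz, Pi.add_apply, map_add, Complex.ofReal_add]
  ring

theorem zz_zsmul (z₁ z₂ : Sg k → ℂ) (n : ℤ) (X Y : 𝓞 k) :
    zz z₁ z₂ (n • X) (n • Y) = n • zz z₁ z₂ X Y := by
  funext s
  simp only [zz, Pi.smul_apply, zsmul_eq_mul, map_mul, map_intCast, Complex.ofReal_mul,
    Complex.ofReal_intCast]
  ring

theorem exists_z [NumberField k] (hrot : RotStmt) {δ : ℝ} {v : Q4 (𝓞 k)} (h : Lrg δ v) :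
    ∃ z₁ z₂ : Sg k → ℂ, (∀ s, |(starRingEnd ℂ (z₁ s) * z₂ s).im| = 1 / 2) ∧
      ∀ (X Y : 𝓞 k) (s : Sg k), ‖zz z₁ z₂ X Y s‖ ^ 2 = hx v X Y s ∧
        ((zz z₁ z₂ X Y s) ^ 3).im = s ((val v X Y : 𝓞 k) : k) /
          (2 * s ((qM v : 𝓞 k) : k) ^ (1 / 4 : ℝ)) := by
  have h1 : ∀ s : Sg k, ∃ z₁ z₂ : ℂ, |(starRingEnd ℂ z₁ * z₂).im| = 1 / 2 ∧
    ∀ X Y : ℝ, ‖(X : ℂ) * z₁ + (Y : ℂ) * z₂‖ ^ 2 = hes (rv s v) X Y / Real.sqrt (qM (rv s v)) ∧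
      (((X : ℂ) * z₁ + (Y : ℂ) * z₂) ^ 3).im =
        val (rv s v) X Y / (2 * qM (rv s v) ^ (1 / 4 : ℝ)) :=
    fun s => hrot (rv s v) (by rw [qP_rv]; exact h.posP s) (by rw [qM_rv]; exact h.posM s)
  choose z₁ z₂ hz1 hz2 using h1
  refine ⟨z₁, z₂, hz1, fun X Y s => ?_⟩
  have h2 := hz2 s (s (X : k)) (s (Y : k))
  rw [hes_rv, val_rv, qM_rv] at h2
  exact h2

/-- no short vectors -/
theorem norm_zz [NumberField k] {δ : ℝ} {v : Q4 (𝓞 k)} (h : Lrg δ v) (hn : 0 < Fintype.card (Sg k))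
    (z₁ z₂ : Sg k → ℂ) (hz : ∀ (X Y : 𝓞 k) (s : Sg k), ‖zz z₁ z₂ X Y s‖ ^ 2 = hx v X Y s)
    (X Y : 𝓞 k) (hXY : X ≠ 0 ∨ Y ≠ 0) : min 1 δ ≤ ‖zz z₁ z₂ X Y‖ := by
  by_contra hc
  push Not at hc
  have h1 := h.short X Y hXY
  have h2 : ∏ s, hx v X Y s ≤ ∏ _s : Sg k, ‖zz z₁ z₂ X Y‖ ^ 2 := by
    refine Finset.prod_le_prod (fun s _ => ?_) (fun s _ => ?_)
    · rw [← hz]
      positivity
    · rw [← hz]
      exact pow_le_pow_left₀ (norm_nonneg _) (norm_le_pi_norm _ s) 2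
  rw [Finset.prod_const, Finset.card_univ, ← pow_mul] at h2
  have h3 : ‖zz z₁ z₂ X Y‖ ≤ 1 := hc.le.trans (min_le_left _ _)
  have h4 : ‖zz z₁ z₂ X Y‖ ^ (2 * Fintype.card (Sg k)) ≤ ‖zz z₁ z₂ X Y‖ :=
    pow_le_of_le_one (norm_nonneg _) h3 (by omega)
  have h5 := min_le_right 1 δ
  linarith

/-- the lattice -/
theorem span_zz [NumberField k] {κ : Type} (N : Ideal (𝓞 k)) (B' : Basis κ ℝ (Sg k → ℝ))
    (hB' : ∀ x : Sg k → ℝ, x ∈ Submodule.span ℤ (Set.range B') ↔ ∃ y ∈ N, x = lam (y : k))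
    (z₁ z₂ : Sg k → ℂ) (b : Basis (κ ⊕ κ) ℝ (Sg k → ℂ))
    (hb1 : ∀ i, b (Sum.inl i) = fun s => (B' i s : ℂ) * z₁ s)
    (hb2 : ∀ i, b (Sum.inr i) = fun s => (B' i s : ℂ) * z₂ s) (y : Sg k → ℂ)
    (hy : y ∈ Submodule.span ℤ (Set.range b)) :
    ∃ X ∈ N, ∃ Y ∈ N, y = zz z₁ z₂ X Y := by
  induction hy using Submodule.span_induction with
  | mem x hx =>
    obtain ⟨i, rfl⟩ := hx
    rcases i with i | i
    · obtain ⟨x, hx, hxe⟩ := (hB' (B' i)).1 (Submodule.subset_span ⟨i, rfl⟩)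
      refine ⟨x, hx, 0, N.zero_mem, ?_⟩
      rw [hb1, hxe]
      funext s
      simp [zz, lam]
    · obtain ⟨x, hx, hxe⟩ := (hB' (B' i)).1 (Submodule.subset_span ⟨i, rfl⟩)
      refine ⟨0, N.zero_mem, x, hx, ?_⟩
      rw [hb2, hxe]
      funext s
      simp [zz, lam]
  | zero =>
    refine ⟨0, N.zero_mem, 0, N.zero_mem, ?_⟩
    funext s
    simp [zz]
  | add x y _ _ hx hy =>
    obtain ⟨X, hX, Y, hY, rfl⟩ := hx
    obtain ⟨X', hX', Y', hY', rfl⟩ := hy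
    exact ⟨X + X', N.add_mem hX hX', Y + Y', N.add_mem hY hY', (zz_add _ _ _ _ _ _).symm⟩
  | smul n x _ hx =>
    obtain ⟨X, hX, Y, hY, rfl⟩ := hx
    exact ⟨n • X, zsmul_mem hX n, n • Y, zsmul_mem hY n, (zz_zsmul _ _ _ _ _).symm⟩

/-- the region -/
theorem region [NumberField k] (Φ : Frame k) {δ : ℝ} {v : Q4 (𝓞 k)} (h : Lrg δ v)
    (z₁ z₂ : Sg k → ℂ)
    (hz : ∀ (X Y : 𝓞 k) (s : Sg k), ‖zz z₁ z₂ X Y s‖ ^ 2 = hx v X Y s ∧
        ((zz z₁ z₂ X Y s) ^ 3).im = s ((val v X Y : 𝓞 k) : k) /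
          (2 * s ((qM v : 𝓞 k) : k) ^ (1 / 4 : ℝ)))
    (t η : ℝ) (ht : 1 ≤ t) (X Y : 𝓞 k) (hw : t⁻¹ • zz z₁ z₂ X Y ∈ DD Φ η) :
    hx v X Y ∈ Φ.F ∧ ∏ s, hx v X Y s ≤ t ^ (2 * Fintype.card (Sg k)) ∧
      ∀ s : Sg k, η * s ((qM v : 𝓞 k) : k) ^ (1 / 4 : ℝ) ≤ |s ((val v X Y : 𝓞 k) : k)| := by
  have ht0 : 0 < t := by linarith
  obtain ⟨hw1, hw2⟩ := hw
  obtain ⟨hF, hP⟩ := interior_subset hw1
  have hval : ∀ s, hx v X Y s = t ^ 2 * ‖(t⁻¹ • zz z₁ z₂ X Y) s‖ ^ 2 := by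
    intro s
    rw [Pi.smul_apply, norm_smul, Real.norm_of_nonneg (inv_nonneg.2 ht0.le), mul_pow,
      ← mul_assoc, ← mul_pow, mul_inv_cancel₀ ht0.ne', one_pow, one_mul, (hz X Y s).1]
  refine ⟨?_, ?_, fun s => ?_⟩
  · have h1 := Φ.scal _ hF (t ^ 2) (by positivity)
    have h2 : hx v X Y = t ^ 2 • fun s => ‖(t⁻¹ • zz z₁ z₂ X Y) s‖ ^ 2 := by
      funext s
      exact hval s
    rw [h2]
    exact h1
  · rw [Finset.prod_congr rfl (fun s _ => hval s), Finset.prod_mul_distrib, Finset.prod_const,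
      Finset.card_univ, ← pow_mul]
    have h1 : ∏ s, ‖(t⁻¹ • zz z₁ z₂ X Y) s‖ ^ 2 ≤ 1 := hP
    calc t ^ (2 * Fintype.card (Sg k)) * ∏ s, ‖(t⁻¹ • zz z₁ z₂ X Y) s‖ ^ 2
        ≤ t ^ (2 * Fintype.card (Sg k)) * 1 := mul_le_mul_of_nonneg_left h1 (by positivity)
      _ = _ := mul_one _
  · have hM : 0 < s ((qM v : 𝓞 k) : k) ^ (1 / 4 : ℝ) := Real.rpow_pos_of_pos (h.posM s) _
    have h1 := hw2 s
    have h2 : ((t⁻¹ • zz z₁ z₂ X Y) s ^ 3).im = (t⁻¹) ^ 3 * ((zz z₁ z₂ X Y s) ^ 3).im := by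
      rw [Pi.smul_apply, Complex.real_smul, mul_pow, ← Complex.ofReal_pow, Complex.im_ofReal_mul]
    rw [h2, (hz X Y s).2, abs_mul, abs_div, abs_of_pos (show (0 : ℝ) < 2 * _ by positivity),
      abs_of_pos (show (0 : ℝ) < (t⁻¹) ^ 3 by positivity)] at h1
    have h3 : (t⁻¹) ^ 3 ≤ 1 := pow_le_one₀ (by positivity) (inv_le_one_of_one_le₀ ht)
    have h4 : 0 ≤ |s ((val v X Y : 𝓞 k) : k)| := abs_nonneg _
    have h5 : η < |s ((val v X Y : 𝓞 k) : k)| / (2 * s ((qM v : 𝓞 k) : k) ^ (1 / 4 : ℝ)) := by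
      refine h1.trans_le ?_
      exact mul_le_of_le_one_left (by positivity) h3
    rw [lt_div_iff₀ (by positivity)] at h5
    nlinarith

theorem prod_nonneg' [NumberField k] (Q : Finset (HeightOneSpectrum (𝓞 k))) :
    0 ≤ ∏ p ∈ Q, (1 - 1 / np p ^ 2) := by
  refine Finset.prod_nonneg (fun p _ => ?_)
  unfold np
  rcases Nat.eq_zero_or_pos (Ideal.absNorm p.asIdeal) with h | h
  · rw [h]
    simp
  · have h1 : (1 : ℝ) ≤ (Ideal.absNorm p.asIdeal : ℝ) ^ 2 := by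
      have : (1 : ℝ) ≤ (Ideal.absNorm p.asIdeal : ℝ) := by exact_mod_cast h
      nlinarith
    rw [sub_nonneg, div_le_one (by linarith)]
    exact h1

/-- the final inequality -/
theorem final_ineq (P D A vF vol ε T s : ℝ) (n : ℕ) (hP : 0 ≤ P) (hD : 0 < D) (hA : 0 < A)
    (hT : 0 < T) (hvol : Real.pi ^ n * vF - ε / 2 ^ (n + 1) ≤ vol) (hs : P * A ^ 2 ≤ s) (g : ℝ)
    (hg0 : 0 ≤ g)
    (hg : s * ((vol - ε / 2 ^ (n + 1)) * T / ((D * A) ^ 2 / 2 ^ n)) ≤ g) :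
    P * ((2 * Real.pi) ^ n * vF - ε) * T / D ^ 2 ≤ g := by
  have h2n : (0 : ℝ) < 2 ^ n := by positivity
  have h1 : (2 * Real.pi) ^ n * vF - ε ≤ 2 ^ n * (vol - ε / 2 ^ (n + 1)) := by
    have e1 : 2 ^ n * (Real.pi ^ n * vF - ε / 2 ^ (n + 1)) ≤ 2 ^ n * vol :=
      mul_le_mul_of_nonneg_left hvol h2n.le
    have e2 : (2 : ℝ) ^ n * (ε / 2 ^ (n + 1)) = ε / 2 := by
      rw [pow_succ]
      field_simp
    rw [mul_sub, e2] at e1
    rw [mul_sub, e2, mul_pow]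
    linarith
  by_cases hk : (2 * Real.pi) ^ n * vF - ε ≤ 0
  · refine le_trans ?_ hg0
    refine div_nonpos_of_nonpos_of_nonneg ?_ (by positivity)
    exact mul_nonpos_of_nonpos_of_nonneg (mul_nonpos_of_nonneg_of_nonpos hP hk) hT.le
  · push Not at hk
    have hw : 0 < vol - ε / 2 ^ (n + 1) := by
      have : 0 < 2 ^ n * (vol - ε / 2 ^ (n + 1)) := hk.trans_le h1
      exact (mul_pos_iff_of_pos_left h2n).1 this
    refine le_trans ?_ hg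
    calc P * ((2 * Real.pi) ^ n * vF - ε) * T / D ^ 2
        ≤ P * (2 ^ n * (vol - ε / 2 ^ (n + 1))) * T / D ^ 2 := by
          refine div_le_div_of_nonneg_right ?_ (by positivity)
          refine mul_le_mul_of_nonneg_right ?_ hT.le
          exact mul_le_mul_of_nonneg_left h1 hP
      _ = (P * A ^ 2) * ((vol - ε / 2 ^ (n + 1)) * T / ((D * A) ^ 2 / 2 ^ n)) := by
          field_simp
      _ ≤ s * ((vol - ε / 2 ^ (n + 1)) * T / ((D * A) ^ 2 / 2 ^ n)) := by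
          refine mul_le_mul_of_nonneg_right hs ?_
          positivity

theorem prc_ex (hprc : PrcStmt) [NumberField k] (Q : Finset (HeightOneSpectrum (𝓞 k))) :
    ∃ N : Ideal (𝓞 k), N ≠ ⊥ ∧ ∃ S : Set ((𝓞 k ⧸ N) × (𝓞 k ⧸ N)),
      (∀ X Y : 𝓞 k, (Ideal.Quotient.mk N X, Ideal.Quotient.mk N Y) ∈ S →
        ∀ p ∈ Q, ¬ (X ∈ p.asIdeal ∧ Y ∈ p.asIdeal)) ∧
      (∏ p ∈ Q, (1 - 1 / np p ^ 2)) * (Ideal.absNorm N : ℝ) ^ 2 ≤ (S.ncard : ℝ) :=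
  ⟨∏ p ∈ Q, p.asIdeal, Finset.prod_ne_zero_iff.2 (fun p _ => p.ne_bot), hprc k Q⟩

theorem lwa (hltl : LtlStmt) (hltz : LtzStmt) (hrot : RotStmt) (hvod : VodStmt) (hprc : PrcStmt)
    (hcov : CovStmt) (hcon : ConStmt) (hlwt : LwtStmt) : LwaStmt := by
  classical
  intro k _ _ hk Φ ε hε
  obtain ⟨hcard, hD, hvF, -, -⟩ := hcon k hk Φ
  have hn : 0 < finrank ℚ k := finrank_pos
  obtain ⟨n, hnn⟩ : ∃ n, n = finrank ℚ k := ⟨_, rfl⟩
  rw [← hnn] at hn hcard ⊢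
  obtain ⟨η, hη, hopen, hbdd, hvol⟩ := hvod k hk Φ (ε / 2 ^ (n + 1)) (by positivity)
  rw [← hnn] at hvol
  refine ⟨η, hη, fun δ Q hδ => ?_⟩
  obtain ⟨N, hN, S, hS1, hS2⟩ := prc_ex hprc Q
  obtain ⟨B', hB', hvolB⟩ := hcov k hk Φ N hN
  obtain ⟨t0, ht0, hltl'⟩ := hltl (Sg k → ℂ) volume (Φ.κ ⊕ Φ.κ) (DD Φ η) hopen hbdd (min 1 δ)
    ((Φ.D * (Ideal.absNorm N : ℝ)) ^ 2 / 2 ^ Fintype.card (Sg k)) (ε / 2 ^ (n + 1))
    (lt_min one_pos hδ) (by positivity)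
  refine ⟨max 1 (t0 ^ (2 * n)), by positivity, fun T hT v hv => ?_⟩
  have hT1 : 1 ≤ T := (le_max_left _ _).trans hT
  have hT0 : 0 < T := by linarith
  obtain ⟨t, htdef⟩ : ∃ t : ℝ, t = T ^ (((2 * n : ℕ) : ℝ)⁻¹) := ⟨_, rfl⟩
  have htT : t ^ (2 * n) = T := by
    rw [htdef]
    exact Real.rpow_inv_natCast_pow hT0.le (by omega)
  have htpos : 0 < t := by
    rw [htdef]
    exact Real.rpow_pos_of_pos hT0 _
  have ht1 : 1 ≤ t := by
    by_contra hc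
    push Not at hc
    have := pow_lt_one₀ htpos.le hc (show 2 * n ≠ 0 by omega)
    linarith
  have htt0 : t0 ≤ t := by
    have h1 : t0 ^ (2 * n) ≤ t ^ (2 * n) := by
      rw [htT]
      exact (le_max_right _ _).trans hT
    exact le_of_pow_le_pow_left₀ (by omega) htpos.le h1
  obtain ⟨z₁, z₂, hz1, hz2⟩ := exists_z hrot hv
  obtain ⟨b, hb1, hb2, hbvol⟩ := hltz (Sg k) Φ.κ B' z₁ z₂ hz1
  rw [hvolB] at hbvol
  have hspan := span_zz N B' hB' z₁ z₂ b hb1 hb2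
  have hcardpos : 0 < Fintype.card (Sg k) := by omega
  have hshort : ∀ y ∈ Submodule.span ℤ (Set.range b), y ≠ 0 → min 1 δ ≤ ‖y‖ := by
    intro y hy hy0
    obtain ⟨X, _, Y, _, rfl⟩ := hspan y hy
    refine norm_zz hv hcardpos z₁ z₂ (fun X Y s => (hz2 X Y s).1) X Y ?_
    by_contra hc
    push Not at hc
    apply hy0
    rw [hc.1, hc.2]
    funext s
    simp [zz]
  have hcount := hltl' t htt0 b hshort hbvol.le
  have hfr : finrank ℝ (Sg k → ℂ) = 2 * n := by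
    rw [Module.finrank_pi_fintype, Finset.sum_const, Finset.card_univ, Complex.finrank_real_complex,
      hcard, smul_eq_mul, mul_comm]
  rw [hfr, htT, hbvol, hcard] at hcount
  obtain ⟨G, hG⟩ : ∃ G : Set (𝓞 k × 𝓞 k), G = {p : 𝓞 k × 𝓞 k |
        (∀ q ∈ Q, ¬ (p.1 ∈ q.asIdeal ∧ p.2 ∈ q.asIdeal)) ∧
        hx v p.1 p.2 ∈ Φ.F ∧ ∏ s, hx v p.1 p.2 s ≤ T ∧
        ∀ s : Sg k, η * s ((qM v : 𝓞 k) : k) ^ (1 / 4 : ℝ) ≤
          |s ((val v p.1 p.2 : 𝓞 k) : k)|} := ⟨_, rfl⟩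
  rw [← hG]
  have hGfin : G.Finite := by
    obtain ⟨A, _, hA⟩ := hlwt k hk Φ δ hδ
    refine (hA v hv T hT0).1.subset (fun p hp => ?_)
    rw [hG] at hp
    exact ⟨hp.2.1, hp.2.2.1⟩
  have hfinq : Finite (𝓞 k ⧸ N) := Ideal.finiteQuotientOfFreeOfNeBot N hN
  have hSfin : S.Finite := Set.toFinite S
  have habs : 0 < Ideal.absNorm N := by
    rw [Nat.pos_iff_ne_zero, Ne, Ideal.absNorm_eq_zero_iff]
    exact hN
  obtain ⟨g, hgdef⟩ : ∃ g : 𝓞 k × 𝓞 k → (𝓞 k ⧸ N) × (𝓞 k ⧸ N),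
    g = fun p => (Ideal.Quotient.mk N p.1, Ideal.Quotient.mk N p.2) := ⟨_, rfl⟩
  have hclass : ∀ c ∈ hSfin.toFinset, ((volume (DD Φ η)).toReal - ε / 2 ^ (n + 1)) * T /
      ((Φ.D * (Ideal.absNorm N : ℝ)) ^ 2 / 2 ^ n) ≤
      ((hGfin.toFinset.filter (fun p => g p = c)).card : ℝ) := by
    intro c hc
    rw [Set.Finite.mem_toFinset] at hc
    obtain ⟨Xc, hXc⟩ := Ideal.Quotient.mk_surjective c.1
    obtain ⟨Yc, hYc⟩ := Ideal.Quotient.mk_surjective c.2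
    obtain ⟨hAfin, hAc⟩ := hcount (zz z₁ z₂ Xc Yc)
    have hV : 0 < (Φ.D * (Ideal.absNorm N : ℝ)) ^ 2 / 2 ^ n := by
      have : (0 : ℝ) < (Ideal.absNorm N : ℝ) := by exact_mod_cast habs
      positivity
    rw [div_le_iff₀ hV]
    refine hAc.trans (mul_le_mul_of_nonneg_right ?_ hV.le)
    rw [Set.ncard_eq_toFinset_card _ hAfin]
    have hex : ∀ y : Sg k → ℂ, y ∈ hAfin.toFinset → ∃ p : 𝓞 k × 𝓞 k,
        p ∈ hGfin.toFinset.filter (fun p => g p = c) ∧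
          zz z₁ z₂ Xc Yc + y = zz z₁ z₂ p.1 p.2 := by
      intro y hy
      rw [Set.Finite.mem_toFinset] at hy
      obtain ⟨X, hX, Y, hY, rfl⟩ := hspan y hy.1
      have hzz : zz z₁ z₂ Xc Yc + zz z₁ z₂ X Y = zz z₁ z₂ (Xc + X) (Yc + Y) :=
        (zz_add _ _ _ _ _ _).symm
      have hreg := region Φ hv z₁ z₂ hz2 t η ht1 (Xc + X) (Yc + Y) (by
        rw [← hzz]
        exact hy.2)
      have hgc : g (Xc + X, Yc + Y) = c := by
        rw [hgdef]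
        have e1 : Ideal.Quotient.mk N (Xc + X) = c.1 := by
          rw [map_add, Ideal.Quotient.eq_zero_iff_mem.2 hX, add_zero, hXc]
        have e2 : Ideal.Quotient.mk N (Yc + Y) = c.2 := by
          rw [map_add, Ideal.Quotient.eq_zero_iff_mem.2 hY, add_zero, hYc]
        exact Prod.ext e1 e2
      refine ⟨(Xc + X, Yc + Y), Finset.mem_filter.2 ⟨?_, hgc⟩, hzz⟩
      rw [Set.Finite.mem_toFinset, hG]
      refine ⟨hS1 _ _ ?_, hreg.1, ?_, hreg.2.2⟩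
      · have e1 : (Ideal.Quotient.mk N (Xc + X), Ideal.Quotient.mk N (Yc + Y)) = c := by
          rw [← hgc, hgdef]
        rw [e1]
        exact hc
      · rw [← htT, ← hcard]
        exact hreg.2.1
    choose! F hF1 hF2 using hex
    exact_mod_cast Finset.card_le_card_of_injOn F hF1 (fun y hy y' hy' h => by
      have e1 := hF2 y hy
      have e2 := hF2 y' hy'
      rw [h, ← e2] at e1
      exact add_left_cancel e1)
  have hsum : (hSfin.toFinset.card : ℝ) * (((volume (DD Φ η)).toReal - ε / 2 ^ (n + 1)) * T /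
      ((Φ.D * (Ideal.absNorm N : ℝ)) ^ 2 / 2 ^ n)) ≤ (G.ncard : ℝ) := by
    rw [Set.ncard_eq_toFinset_card G hGfin, ← nsmul_eq_mul, ← Finset.sum_const]
    refine (Finset.sum_le_sum hclass).trans ?_
    rw [← Nat.cast_sum, Finset.sum_card_fiberwise_eq_card_filter]
    exact_mod_cast Finset.card_filter_le _ _
  rw [Set.ncard_eq_toFinset_card S hSfin] at hS2
  exact final_ineq _ Φ.D (Ideal.absNorm N : ℝ) Φ.vF _ ε T _ n (prod_nonneg' Q) hD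
    (by exact_mod_cast habs) hT0 hvol hS2 _ (Nat.cast_nonneg _) hsum

end Pool.Agent.LeoK.H76
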